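import Pool.Agent.Q74.AR.Def

/-! # Lemma job CS of project AR (helper74): the Cauchy-Schwarz bound. -/

set_option autoImplicit false

namespace Pool.Agent.Q213.AR

open Finset
open Pool.Agent.Q158.Pair (step av av_mono av_add av_mul av_const)
open Pool.Agent.Q74.AR (ac rs S_Occ S_CS)

theorem ac_add (f g : ℕ × ℤ → ℝ) (t : ℕ) (z : ℕ × ℤ) :
    ac (fun z => f z + g z) t z = ac f t z + ac g t z := by
  induction t generalizing z with
  | zero => simp [ac]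
  | succ t ih =>
    simp only [ac]
    split_ifs
    · simp
    · have h1 : av (ac (fun z => f z + g z) t) z = av (ac f t) z + av (ac g t) z := by
        unfold av
        rw [ih, ih]
        ring
      rw [h1]
      ring

theorem ac_mul (c : ℝ) (g : ℕ × ℤ → ℝ) (t : ℕ) (z : ℕ × ℤ) :
    ac (fun z => c * g z) t z = c * ac g t z := by
  induction t generalizing z with
  | zero => simp [ac]
  | succ t ih =>
    simp only [ac]
    split_ifs
    · simp
    · have h1 : av (ac (fun z => c * g z) t) z = c * av (ac g t) z := by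
        unfold av
        rw [ih, ih]
        ring
      rw [h1]
      ring

theorem ac_zero (t : ℕ) (z : ℕ × ℤ) : ac (fun _ => 0) t z = 0 := by
  have h := ac_mul 0 (fun _ => 0) t z
  simpa using h

theorem ac_sum {α : Type} (s : Finset α) (g : α → ℕ × ℤ → ℝ) (t : ℕ) (z : ℕ × ℤ) :
    ac (fun z => ∑ i ∈ s, g i z) t z = ∑ i ∈ s, ac (g i) t z := by
  classical
  induction s using Finset.induction_on with
  | empty => simp [ac_zero]
  | insert a s ha ih =>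
    simp only [sum_insert ha]
    rw [ac_add, ih]

theorem ac_mono {f g : ℕ × ℤ → ℝ} (h : ∀ z, f z ≤ g z) (t : ℕ) (z : ℕ × ℤ) :
    ac f t z ≤ ac g t z := by
  induction t generalizing z with
  | zero => simp [ac]
  | succ t ih =>
    simp only [ac]
    split_ifs
    · exact le_rfl
    · exact add_le_add (h z) (av_mono ih z)

theorem ac_const {c : ℝ} (hc : 0 ≤ c) (t : ℕ) (z : ℕ × ℤ) : ac (fun _ => c) t z ≤ c * t := by
  induction t generalizing z with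
  | zero => simp [ac]
  | succ t ih =>
    simp only [ac]
    split_ifs
    · positivity
    · have h1 : av (ac (fun _ => c) t) z ≤ c * t := by
        unfold av
        linarith [ih (step false z), ih (step true z)]
      push_cast
      linarith

/-- a periodic function as a sum over the residues -/
theorem res_sum {M : ℕ} (hM : 0 < M) (G : ℤ → ℝ) (hG : ∀ x i : ℤ, G (x + M * i) = G x) (y : ℤ) :
    G y = ∑ s ∈ range M, G s * (if (M : ℤ) ∣ y - s then 1 else 0) := by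
  have hM' : (0 : ℤ) < M := by exact_mod_cast hM
  have h0 := Int.emod_nonneg y hM'.ne'
  have h1 := Int.emod_lt_of_pos y hM'
  rw [sum_eq_single (y % M).toNat]
  · rw [if_pos]
    · rw [mul_one, Int.toNat_of_nonneg h0]
      have h2 := hG (y % M) (y / M)
      rw [Int.emod_add_mul_ediv] at h2
      exact h2
    · rw [Int.toNat_of_nonneg h0]
      exact Int.dvd_self_sub_emod
  · intro s hs hne
    rw [if_neg, mul_zero]
    intro hd
    apply hne
    have h3 : y % M = (s : ℤ) % M := (Int.emod_emod_of_dvd y (dvd_refl (M : ℤ))) ▸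
      (Int.emod_emod_of_dvd y (dvd_refl (M : ℤ))).symm ▸ (Int.ModEq.symm
        ((Int.modEq_iff_dvd).2 hd) : y ≡ s [ZMOD M])
    have h4 : (s : ℤ) % M = s := Int.emod_eq_of_lt (Int.natCast_nonneg s)
      (by exact_mod_cast mem_range.1 hs)
    rw [h3, h4, Int.toNat_natCast]
  · intro h
    exact absurd (mem_range.2 (by omega)) h

/-- number of solutions of a linear congruence modulo `2 ^ n` -/
theorem count_lin (n : ℕ) (D C : ℤ) :
    (((range (2 ^ n)).filter fun r : ℕ => (2 ^ n : ℤ) ∣ D * r + C).card : ℝ) ≤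
      1 + ∑ k ∈ Icc 1 n, (2 : ℝ) ^ k * (if (2 ^ k : ℤ) ∣ D then 1 else 0) := by
  classical
  obtain ⟨j, hj, hjn, hjmax⟩ : ∃ j, (2 ^ j : ℤ) ∣ D ∧ j ≤ n ∧ ∀ i, (2 ^ i : ℤ) ∣ D → i ≤ n → i ≤ j := by
    have hne : ((range (n + 1)).filter fun i => (2 ^ i : ℤ) ∣ D).Nonempty :=
      ⟨0, mem_filter.2 ⟨mem_range.2 (by omega), by simp⟩⟩
    obtain ⟨j, hj, hmax⟩ := exists_max_image _ (fun i => i) hne
    obtain ⟨h1, h2⟩ := mem_filter.1 hj
    exact ⟨j, h2, by have := mem_range.1 h1; omega, fun i hi hin =>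
      hmax i (mem_filter.2 ⟨mem_range.2 (by omega), hi⟩)⟩
  have hcard : ((range (2 ^ n)).filter fun r : ℕ => (2 ^ n : ℤ) ∣ D * r + C).card ≤ 2 ^ j := by
    have hinj : ∀ r ∈ (range (2 ^ n)).filter fun r : ℕ => (2 ^ n : ℤ) ∣ D * r + C,
        ∀ r' ∈ (range (2 ^ n)).filter fun r : ℕ => (2 ^ n : ℤ) ∣ D * r + C,
        r / 2 ^ (n - j) = r' / 2 ^ (n - j) → r = r' := by
      intro r hr r' hr' hrr
      obtain ⟨_, h1⟩ := mem_filter.1 hr
      obtain ⟨_, h2⟩ := mem_filter.1 hr'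
      have h3 : (2 ^ n : ℤ) ∣ D * (r - r') := by
        have := dvd_sub h1 h2
        rwa [show D * (r : ℤ) + C - (D * (r' : ℤ) + C) = D * (r - r') by ring] at this
      have h4 : (2 ^ (n - j) : ℤ) ∣ (r : ℤ) - r' := by
        obtain ⟨D', rfl⟩ := hj
        rcases Nat.lt_or_eq_of_le hjn with hlt | heq
        · have hodd : ¬ (2 : ℤ) ∣ D' := by
            rintro ⟨D'', rfl⟩
            have := hjmax (j + 1) ⟨D'', by rw [pow_succ]; ring⟩ (by omega)
            omega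
          have h5 : (2 ^ (n - j) : ℤ) ∣ D' * (r - r') := by
            have h6 : (2 ^ n : ℤ) = 2 ^ j * 2 ^ (n - j) := by
              rw [← pow_add]; congr 1; omega
            rw [h6, mul_assoc] at h3
            exact Int.dvd_of_mul_dvd_mul_left (by positivity) h3
          refine IsCoprime.dvd_of_dvd_mul_left ?_ h5
          apply IsCoprime.pow_left
          exact (Prime.coprime_iff_not_dvd Int.prime_two).2 hodd
        · rw [heq, Nat.sub_self, pow_zero]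
          exact one_dvd _
      have h7 : r % 2 ^ (n - j) = r' % 2 ^ (n - j) := by
        have h8 : (r' : ℤ) ≡ r [ZMOD ((2 ^ (n - j) : ℕ) : ℤ)] := by
          apply Int.modEq_iff_dvd.2
          push_cast
          exact h4
        exact ((Int.natCast_modEq_iff.1 h8).symm : r ≡ r' [MOD 2 ^ (n - j)])
      rw [← Nat.div_add_mod r (2 ^ (n - j)), ← Nat.div_add_mod r' (2 ^ (n - j)), hrr, h7]
    calc _ ≤ (range (2 ^ j)).card := by
          apply card_le_card_of_injOn (fun r => r / 2 ^ (n - j))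
          · intro r hr
            have h1 := mem_range.1 (mem_filter.1 (mem_coe.1 hr)).1
            rw [mem_coe, mem_range]
            apply Nat.div_lt_of_lt_mul
            rw [← pow_add, Nat.sub_add_cancel hjn]
            exact h1
          · intro r hr r' hr' h
            exact hinj r (mem_coe.1 hr) r' (mem_coe.1 hr') h
      _ = 2 ^ j := card_range _
  have h1 : (((range (2 ^ n)).filter fun r : ℕ => (2 ^ n : ℤ) ∣ D * r + C).card : ℝ) ≤ 2 ^ j := by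
    exact_mod_cast hcard
  refine h1.trans ?_
  rcases Nat.eq_zero_or_pos j with rfl | hj0
  · rw [pow_zero]
    have : (0 : ℝ) ≤ ∑ k ∈ Icc 1 n, (2 : ℝ) ^ k * (if (2 ^ k : ℤ) ∣ D then 1 else 0) :=
      sum_nonneg fun k _ => by positivity
    linarith
  · have h2 : (2 : ℝ) ^ j * (if (2 ^ j : ℤ) ∣ D then 1 else 0) ≤
        ∑ k ∈ Icc 1 n, (2 : ℝ) ^ k * (if (2 ^ k : ℤ) ∣ D then 1 else 0) :=
      single_le_sum (f := fun k => (2 : ℝ) ^ k * (if (2 ^ k : ℤ) ∣ D then 1 else 0))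
        (fun k _ => by positivity) (mem_Icc.2 ⟨hj0, hjn⟩)
    rw [if_pos hj, mul_one] at h2
    linarith

theorem ord_three_aux {k d : ℕ} (hk : 2 ≤ k) (h : (2 ^ k : ℤ) ∣ 3 ^ d - 1) : 2 ^ (k - 2) ∣ d := by
  rcases Nat.eq_zero_or_pos d with rfl | hd
  · exact dvd_zero _
  have h1 : 2 ^ k ∣ 3 ^ d - 1 := by
    have h2 : ((3 ^ d - 1 : ℕ) : ℤ) = 3 ^ d - 1 := by
      rw [Nat.cast_sub (Nat.one_le_pow _ _ (by norm_num))]
      push_cast
      ring
    rw [← h2] at h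
    exact_mod_cast h
  have heven : Even d := by
    by_contra hodd
    rw [Nat.not_even_iff_odd] at hodd
    obtain ⟨m, rfl⟩ := hodd
    have h2 : 4 ∣ 3 ^ (2 * m + 1) - 1 := (pow_dvd_pow 2 hk).trans h1
    have h3 : 3 ^ (2 * m + 1) % 4 = 3 := by
      rw [pow_succ, pow_mul, Nat.mul_mod, Nat.pow_mod]
      norm_num
    have h4 : 1 ≤ 3 ^ (2 * m + 1) := Nat.one_le_pow _ _ (by norm_num)
    omega
  have h2 := padicValNat.pow_two_sub_pow (x := 3) (y := 1) (by norm_num) (by norm_num)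
    (by norm_num) hd.ne' heven
  have h3 : padicValNat 2 (3 + 1) = 2 := by
    rw [show 3 + 1 = 2 ^ 2 by norm_num, padicValNat.prime_pow]
  have h4 : padicValNat 2 (3 - 1) = 1 := by
    rw [show 3 - 1 = 2 ^ 1 by norm_num, padicValNat.prime_pow]
  rw [h3, h4, one_pow] at h2
  have h5 : 3 ^ d - 1 ≠ 0 := by
    have : 3 ^ 1 ≤ 3 ^ d := Nat.pow_le_pow_right (by norm_num) hd
    omega
  have h6 : k ≤ padicValNat 2 (3 ^ d - 1) := (padicValNat_dvd_iff_le h5).1 h1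
  exact (padicValNat_dvd_iff_le hd.ne').2 (by omega)

theorem ord_three {k a b : ℕ} (hk : 2 ≤ k) (h : (2 ^ k : ℤ) ∣ 3 ^ b - 3 ^ a) :
    b ≡ a [MOD 2 ^ (k - 2)] := by
  have key : ∀ a b : ℕ, a ≤ b → (2 ^ k : ℤ) ∣ 3 ^ b - 3 ^ a → a ≡ b [MOD 2 ^ (k - 2)] := by
    intro a b hab h
    obtain ⟨d, rfl⟩ := Nat.exists_eq_add_of_le hab
    have h1 : (3 : ℤ) ^ (a + d) - 3 ^ a = 3 ^ a * (3 ^ d - 1) := by rw [pow_add]; ring
    rw [h1] at h
    have h2 : (2 ^ k : ℤ) ∣ 3 ^ d - 1 := by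
      refine IsCoprime.dvd_of_dvd_mul_left ?_ h
      apply IsCoprime.pow
      norm_num
    rw [Nat.modEq_iff_dvd' hab, Nat.add_sub_cancel_left]
    exact ord_three_aux hk h2
  rcases le_total a b with hab | hab
  · exact (key a b hab h).symm
  · refine key b a hab ?_
    rw [← dvd_neg]
    rwa [neg_sub]

/-- indicator of `3 ^ a r + b ≡ s` for the state `z = (a, b)` -/
noncomputable def ind (n : ℕ) (r s : ℤ) (z : ℕ × ℤ) : ℝ :=
  if (((2 ^ n : ℕ) : ℤ)) ∣ 3 ^ z.1 * r + z.2 - s then 1 else 0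

theorem ind_nonneg (n : ℕ) (r s : ℤ) (z : ℕ × ℤ) : 0 ≤ ind n r s z := by
  unfold ind; split_ifs <;> norm_num

theorem ind_per (n : ℕ) (r s i : ℤ) (z : ℕ × ℤ) :
    ind n r (s + ((2 ^ n : ℕ) : ℤ) * i) z = ind n r s z := by
  unfold ind
  have h : (((2 ^ n : ℕ) : ℤ)) ∣ 3 ^ z.1 * r + z.2 - (s + ((2 ^ n : ℕ) : ℤ) * i) ↔
      (((2 ^ n : ℕ) : ℤ)) ∣ 3 ^ z.1 * r + z.2 - s := by
    rw [show 3 ^ z.1 * r + z.2 - (s + ((2 ^ n : ℕ) : ℤ) * i) =
      3 ^ z.1 * r + z.2 - s - ((2 ^ n : ℕ) : ℤ) * i by ring]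
    exact dvd_sub_left (dvd_mul_right _ _)
  simp only [h]

/-- the occupation measure on pairs of residues -/
noncomputable def occ (n t : ℕ) (z₀ : ℕ × ℤ) (r s : ℤ) : ℝ := ac (ind n r s) t z₀ / 2 ^ n

theorem ac_nonneg {g : ℕ × ℤ → ℝ} (h : ∀ z, 0 ≤ g z) (t : ℕ) (z : ℕ × ℤ) : 0 ≤ ac g t z := by
  have h1 := ac_mono h t z
  rwa [ac_zero] at h1

/-- the sum over the diagonal pairs -/
theorem sum_ind (n : ℕ) (z z' : ℕ × ℤ) :
    ∑ r ∈ range (2 ^ n), ind n r (3 ^ z.1 * (r : ℤ) + z.2) z' ≤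
      3 + ∑ k ∈ Icc 2 n, (2 : ℝ) ^ k * rs (k - 2) z.1 z' := by
  classical
  have h1 : ∑ r ∈ range (2 ^ n), ind n r (3 ^ z.1 * (r : ℤ) + z.2) z' =
      (((range (2 ^ n)).filter fun r : ℕ => (2 ^ n : ℤ) ∣
        ((3 : ℤ) ^ z'.1 - 3 ^ z.1) * r + (z'.2 - z.2)).card : ℝ) := by
    rw [card_filter]
    push_cast
    refine sum_congr rfl fun r _ => ?_
    unfold ind
    have h2 : 3 ^ z'.1 * (r : ℤ) + z'.2 - (3 ^ z.1 * (r : ℤ) + z.2) =
        ((3 : ℤ) ^ z'.1 - 3 ^ z.1) * r + (z'.2 - z.2) := by ring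
    rw [h2]
    push_cast
    rfl
  rw [h1]
  refine (count_lin n _ _).trans ?_
  have hterm : ∀ k ∈ Icc 2 n, (2 : ℝ) ^ k * (if (2 ^ k : ℤ) ∣ (3 : ℤ) ^ z'.1 - 3 ^ z.1 then 1 else 0) ≤
      (2 : ℝ) ^ k * rs (k - 2) z.1 z' := by
    intro k hk
    apply mul_le_mul_of_nonneg_left _ (by positivity)
    by_cases h : (2 ^ k : ℤ) ∣ (3 : ℤ) ^ z'.1 - 3 ^ z.1
    · rw [if_pos h]
      unfold rs
      rw [if_pos (ord_three (mem_Icc.1 hk).1 h)]
    · rw [if_neg h]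
      unfold rs
      split_ifs <;> norm_num
  rcases Nat.eq_zero_or_pos n with rfl | hn
  · simp
  have h3 : Icc 1 n = insert 1 (Icc 2 n) := by
    ext k
    simp only [mem_insert, mem_Icc]
    omega
  rw [h3, sum_insert (by simp)]
  have h4 : (2 : ℝ) ^ 1 * (if (2 ^ 1 : ℤ) ∣ (3 : ℤ) ^ z'.1 - 3 ^ z.1 then 1 else 0) ≤ 2 := by
    split_ifs <;> norm_num
  have h5 := sum_le_sum hterm
  linarith

/-- the constant -/
noncomputable def cst (n K t : ℕ) (z₀ : ℕ × ℤ) : ℝ :=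
  20 * n ^ 2 * t + 2 ^ (n + 1) * ((n + 2) * 2 ^ n + K * (z₀.1 + 2) + 6)

theorem geom (n : ℕ) : ∑ k ∈ Icc 2 n, (2 : ℝ) ^ k ≤ 2 ^ (n + 1) ∧
    ∑ k ∈ Icc 2 n, ((k : ℝ) + 2) * 4 ^ (k - 1) ≤ 2 ^ (n + 1) * ((n + 2) * 2 ^ n) ∧
    ∑ k ∈ Icc 2 n, 4 * ((k : ℝ) + 3) ≤ 4 * n ^ 2 + 12 * n := by
  induction n with
  | zero => simp
  | succ n ih =>
    obtain ⟨h1, h2, h3⟩ := ih
    rcases Nat.eq_zero_or_pos n with rfl | hn
    · norm_num
    have h4 : Icc 2 (n + 1) = insert (n + 1) (Icc 2 n) := by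
      ext k
      simp only [mem_insert, mem_Icc]
      omega
    have h5 : (n + 1) ∉ Icc 2 n := by simp
    rw [h4, sum_insert h5, sum_insert h5, sum_insert h5]
    refine ⟨?_, ?_, ?_⟩
    · rw [pow_succ 2 (n + 1)]
      linarith
    · rw [Nat.add_sub_cancel]
      have h6 : (4 : ℝ) ^ n = 2 ^ n * 2 ^ n := by
        rw [← mul_pow]; norm_num
      have h7 : (0 : ℝ) < 2 ^ n * 2 ^ n := by positivity
      have h8 : (2 : ℝ) ^ (n + 1 + 1) * (((n + 1 : ℕ) : ℝ) + 2) * 2 ^ (n + 1) =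
          8 * (n + 3) * (2 ^ n * 2 ^ n) := by
        push_cast
        ring
      have h9 : (2 : ℝ) ^ (n + 1) * ((n + 2) * 2 ^ n) = 2 * (n + 2) * (2 ^ n * 2 ^ n) := by ring
      have h10 : (2 : ℝ) ^ (n + 1 + 1) * ((((n + 1 : ℕ) : ℝ) + 2) * 2 ^ (n + 1)) =
          8 * (n + 3) * (2 ^ n * 2 ^ n) := by rw [← h8]; ring
      rw [h10, h6]
      rw [h9] at h2
      have h11 : (0 : ℝ) ≤ n := Nat.cast_nonneg n
      push_cast
      nlinarith [mul_nonneg h11 h7.le]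
    · push_cast
      nlinarith

theorem sum_occ (hO : S_Occ) {n K t : ℕ} {z₀ : ℕ × ℤ} (hn : 1 ≤ n) (hnK : n ≤ K)
    (hK : z₀.1 + t ≤ 2 ^ K) (z : ℕ × ℤ) :
    ∑ r ∈ range (2 ^ n), occ n t z₀ r (3 ^ z.1 * (r : ℤ) + z.2) ≤ cst n K t z₀ / 2 ^ n := by
  have h1 : ∑ r ∈ range (2 ^ n), occ n t z₀ r (3 ^ z.1 * (r : ℤ) + z.2) =
      ac (fun z' => ∑ r ∈ range (2 ^ n), ind n r (3 ^ z.1 * (r : ℤ) + z.2) z') t z₀ / 2 ^ n := by
    rw [ac_sum, sum_div]
    rfl
  rw [h1]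
  apply div_le_div_of_nonneg_right _ (by positivity)
  refine (ac_mono (fun z' => sum_ind n z z') t z₀).trans ?_
  rw [ac_add, ac_sum]
  have h2 : ac (fun _ => (3 : ℝ)) t z₀ ≤ 3 * t := ac_const (by norm_num) t z₀
  have h3 : ∀ k ∈ Icc 2 n, ac (fun z' => (2 : ℝ) ^ k * rs (k - 2) z.1 z') t z₀ ≤
      4 * ((k : ℝ) + 3) * t + ((k : ℝ) + 2) * 4 ^ (k - 1) + 2 ^ k * (K * (z₀.1 + 2) + 6) := by
    intro k hk
    obtain ⟨hk2, hkn⟩ := mem_Icc.1 hk
    rw [ac_mul]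
    have h4 := hO (k - 2) K t z.1 z₀ (by omega) hK
    have h5 : (0 : ℝ) < 2 ^ k := by positivity
    refine (mul_le_mul_of_nonneg_left h4 h5.le).trans (le_of_eq ?_)
    obtain ⟨j, rfl⟩ : ∃ j, k = j + 2 := ⟨k - 2, by omega⟩
    rw [Nat.add_sub_cancel, show j + 2 - 1 = j + 1 by omega]
    have h6 : (4 : ℝ) ^ (j + 1) = 2 ^ (j + 2) * 2 ^ j := by
      rw [pow_succ, show (4 : ℝ) = 2 * 2 by norm_num, mul_pow]
      ring
    rw [h6]
    push_cast
    field_simp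
    ring
  refine (add_le_add h2 (sum_le_sum h3)).trans ?_
  rw [sum_add_distrib, sum_add_distrib, ← sum_mul, ← sum_mul]
  obtain ⟨g1, g2, g3⟩ := geom n
  unfold cst
  have ht : (0 : ℝ) ≤ t := Nat.cast_nonneg t
  have hn' : (1 : ℝ) ≤ n := by exact_mod_cast hn
  have e1 : (∑ k ∈ Icc 2 n, 4 * ((k : ℝ) + 3)) * t ≤ (4 * n ^ 2 + 12 * n) * t :=
    mul_le_mul_of_nonneg_right g3 ht
  have e2 : (∑ k ∈ Icc 2 n, (2 : ℝ) ^ k) * (K * (z₀.1 + 2) + 6) ≤
      2 ^ (n + 1) * (K * (z₀.1 + 2) + 6) := mul_le_mul_of_nonneg_right g1 (by positivity)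
  have e3 : 3 * (t : ℝ) + (4 * n ^ 2 + 12 * n) * t ≤ 20 * n ^ 2 * t := by
    nlinarith [mul_nonneg ht (mul_nonneg (by linarith : (0 : ℝ) ≤ n) (by linarith : (0 : ℝ) ≤ n - 1)),
      mul_nonneg ht (by linarith : (0 : ℝ) ≤ n - 1)]
  rw [mul_add, mul_add] at *
  nlinarith

theorem cs (hO : S_Occ) : S_CS := by
  intro n K t F z₀ hn hnK hK hF0 hFp
  have hM : 0 < 2 ^ n := by positivity
  have h2n : (0 : ℝ) < 2 ^ n := by positivity
  -- the left side as a sum over pairs of residues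
  have hleft : ac (fun z => (∑ r ∈ range (2 ^ n), F r (3 ^ z.1 * (r : ℤ) + z.2)) / 2 ^ n) t z₀ =
      ∑ p ∈ range (2 ^ n) ×ˢ range (2 ^ n), F p.1 p.2 * occ n t z₀ p.1 p.2 := by
    have h1 : (fun z : ℕ × ℤ => (∑ r ∈ range (2 ^ n), F r (3 ^ z.1 * (r : ℤ) + z.2)) / 2 ^ n) =
        fun z => ∑ p ∈ range (2 ^ n) ×ˢ range (2 ^ n), (F p.1 p.2 / 2 ^ n) * ind n p.1 p.2 z := by
      funext z
      rw [sum_product, sum_div]
      refine sum_congr rfl fun r _ => ?_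
      rw [res_sum hM (fun y => F r y) (fun x i => by
        have := hFp r x 0 i
        simpa using this) (3 ^ z.1 * (r : ℤ) + z.2), sum_div]
      refine sum_congr rfl fun s _ => ?_
      unfold ind
      ring
    rw [h1, ac_sum]
    refine sum_congr rfl fun p _ => ?_
    rw [ac_mul]
    unfold occ
    ring
  have hsq : ∑ p ∈ range (2 ^ n) ×ˢ range (2 ^ n), occ n t z₀ p.1 p.2 ^ 2 ≤
      cst n K t z₀ * t / 4 ^ n := by
    have h1 : ∑ p ∈ range (2 ^ n) ×ˢ range (2 ^ n), occ n t z₀ p.1 p.2 ^ 2 =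
        ac (fun z => ∑ r ∈ range (2 ^ n), occ n t z₀ r (3 ^ z.1 * (r : ℤ) + z.2)) t z₀ / 2 ^ n := by
      have h2 : (fun z : ℕ × ℤ => ∑ r ∈ range (2 ^ n), occ n t z₀ r (3 ^ z.1 * (r : ℤ) + z.2)) =
          fun z => ∑ p ∈ range (2 ^ n) ×ˢ range (2 ^ n), occ n t z₀ p.1 p.2 * ind n p.1 p.2 z := by
        funext z
        rw [sum_product]
        refine sum_congr rfl fun r _ => ?_
        rw [res_sum hM (fun y => occ n t z₀ r y) (fun x i => by
          unfold occ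
          have : ind n (r : ℤ) (x + ((2 ^ n : ℕ) : ℤ) * i) = ind n (r : ℤ) x := by
            funext z
            exact ind_per n r x i z
          rw [this]) (3 ^ z.1 * (r : ℤ) + z.2)]
        rfl
      rw [h2, ac_sum, sum_div]
      refine sum_congr rfl fun p _ => ?_
      rw [ac_mul, sq, mul_div_assoc]
      rfl
    rw [h1]
    have h3 : ac (fun z => ∑ r ∈ range (2 ^ n), occ n t z₀ r (3 ^ z.1 * (r : ℤ) + z.2)) t z₀ ≤
        cst n K t z₀ / 2 ^ n * t := by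
      refine (ac_mono (fun z => sum_occ hO hn hnK hK z) t z₀).trans (ac_const ?_ t z₀)
      unfold cst
      positivity
    have h4 : (4 : ℝ) ^ n = 2 ^ n * 2 ^ n := by rw [← mul_pow]; norm_num
    rw [h4, div_le_div_iff₀ h2n (by positivity)]
    have h5 : cst n K t z₀ / 2 ^ n * t * (2 ^ n * 2 ^ n) = cst n K t z₀ * t * 2 ^ n := by
      field_simp
    rw [← h5]
    exact mul_le_mul_of_nonneg_right h3 (by positivity)
  rw [hleft]
  refine (sum_mul_sq_le_sq_mul_sq _ _ _).trans ?_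
  have h6 : ∑ p ∈ range (2 ^ n) ×ˢ range (2 ^ n), F p.1 p.2 ^ 2 =
      ∑ r ∈ range (2 ^ n), ∑ s ∈ range (2 ^ n), F r s ^ 2 := sum_product _ _ _
  rw [h6]
  have h7 : (0 : ℝ) ≤ ∑ r ∈ range (2 ^ n), ∑ s ∈ range (2 ^ n), F r s ^ 2 :=
    sum_nonneg fun r _ => sum_nonneg fun s _ => sq_nonneg _
  refine (mul_le_mul_of_nonneg_left hsq h7).trans (le_of_eq ?_)
  unfold cst
  ring

end Pool.Agent.Q213.AR
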